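import Mathlib

/-!
Random circle rotations: `y` is uniformly distributed on the torus `(ℝ/ℤ)^ℓ`, `dot n y = ∑ n_i y_i`.
-/

set_option autoImplicit false

open MeasureTheory Set

namespace Pool.Agent.KS6_58.NL

/-- The torus. -/
abbrev Tor (ℓ : ℕ) : Type := Fin ℓ → UnitAddCircle

variable {ℓ : ℕ}

/-- `n · y`. -/
noncomputable def dot (n : Fin ℓ → ℤ) (y : Tor ℓ) : UnitAddCircle := ∑ i, n i • y i

theorem dot_continuous (n : Fin ℓ → ℤ) : Continuous (dot n) := by
  unfold dot
  fun_prop

theorem dot_sub (m n : Fin ℓ → ℤ) (y : Tor ℓ) : dot (m - n) y = dot m y - dot n y := by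
  simp [dot, sub_smul, Finset.sum_sub_distrib]

/-- `n · y` as a homomorphism. -/
noncomputable def dotHom (n : Fin ℓ → ℤ) : Tor ℓ →+ UnitAddCircle where
  toFun := dot n
  map_zero' := by simp [dot]
  map_add' := fun x y => by simp [dot, smul_add, Finset.sum_add_distrib]

theorem dot_surjective (n : Fin ℓ → ℤ) (hn : n ≠ 0) : Function.Surjective (dotHom n) := by
  obtain ⟨i, hi⟩ := Function.ne_iff.mp hn
  have hi' : (n i : ℝ) ≠ 0 := by
    exact_mod_cast hi
  intro x
  induction x using QuotientAddGroup.induction_on with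
  | H t =>
    refine ⟨Pi.single i (((t / n i : ℝ)) : UnitAddCircle), ?_⟩
    show dot n _ = _
    unfold dot
    rw [Finset.sum_eq_single i]
    · rw [Pi.single_eq_same]
      show n i • ((t / n i : ℝ) : UnitAddCircle) = ((t : ℝ) : UnitAddCircle)
      rw [← AddCircle.coe_zsmul]
      congr 1
      rw [zsmul_eq_mul]
      field_simp
    · intro j _ hj
      rw [Pi.single_eq_of_ne hj, smul_zero]
    · intro h
      exact absurd (Finset.mem_univ i) h

theorem dot_mp (n : Fin ℓ → ℤ) (hn : n ≠ 0) :
    MeasurePreserving (dot n) (volume : Measure (Tor ℓ)) (volume : Measure UnitAddCircle) := by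
  have h := AddMonoidHom.measurePreserving (μ := (volume : Measure (Tor ℓ)))
    (ν := (volume : Measure UnitAddCircle)) (f := dotHom n) (dot_continuous n)
    (dot_surjective n hn) (by
      rw [UnitAddCircle.measure_univ, volume_pi, Measure.pi_univ]
      simp)
  exact h

instance : IsProbabilityMeasure (volume : Measure (Tor ℓ)) :=
  ⟨by rw [volume_pi, Measure.pi_univ]; simp⟩

theorem ae_dot_ne (n : Fin ℓ → ℤ) (hn : n ≠ 0) : ∀ᵐ y : Tor ℓ, dot n y ≠ 0 := by
  have h : ∀ᵐ x : UnitAddCircle, x ≠ 0 := by
    have h0 : (volume : Measure UnitAddCircle) {0} = 0 := by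
      have h1 := AddCircle.volume_closedBall 1 (x := (0 : UnitAddCircle)) 0
      rw [Metric.closedBall_zero] at h1
      rw [h1]
      simp
    exact measure_eq_zero_iff_ae_notMem.mp h0
  exact (dot_mp n hn).quasiMeasurePreserving.ae h

theorem norm_le_half (x : UnitAddCircle) : ‖x‖ ≤ 1 / 2 := by
  have h := AddCircle.norm_le_half_period 1 (x := x) one_ne_zero
  simpa using h

/-- The tent function of radius `r`. -/
noncomputable def tent (r : ℝ) (x : UnitAddCircle) : ℝ := max 0 (1 - ‖x‖ / r)

theorem tent_nonneg (r : ℝ) (x : UnitAddCircle) : 0 ≤ tent r x := le_max_left _ _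

theorem tent_le_one {r : ℝ} (hr : 0 ≤ r) (x : UnitAddCircle) : tent r x ≤ 1 :=
  max_le zero_le_one (sub_le_self _ (div_nonneg (norm_nonneg x) hr))

theorem tent_zero (r : ℝ) : tent r 0 = 1 := by simp [tent]

theorem tent_eq_zero {r : ℝ} (hr : 0 < r) {x : UnitAddCircle} (h : r ≤ ‖x‖) : tent r x = 0 := by
  unfold tent
  rw [max_eq_left]
  rw [sub_nonpos, one_le_div hr]
  exact h

theorem tent_continuous (r : ℝ) : Continuous (tent r) := by
  unfold tent
  fun_prop

/-- The tent function is at most the indicator function of a larger ball. -/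
theorem tent_le_ind {r s : ℝ} (hr : 0 < r) (hs : r ≤ s) (x : UnitAddCircle) :
    tent r x ≤ (Metric.closedBall (0 : UnitAddCircle) s).indicator (fun _ => (1 : ℝ)) x := by
  by_cases h : x ∈ Metric.closedBall (0 : UnitAddCircle) s
  · rw [indicator_of_mem h]
    exact tent_le_one hr.le x
  · rw [indicator_of_notMem h]
    rw [Metric.mem_closedBall, dist_zero_right, not_le] at h
    exact (tent_eq_zero hr (hs.trans h.le)).le

/-- The mean value of the indicator function of a ball at `n · y`, `n ≠ 0`. -/
theorem integral_ind (n : Fin ℓ → ℤ) (hn : n ≠ 0) (s : ℝ) (hs : 0 ≤ s) :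
    ∫ y : Tor ℓ, (Metric.closedBall (0 : UnitAddCircle) s).indicator (fun _ => (1 : ℝ)) (dot n y) ≤
      2 * s := by
  have h : ∫ y : Tor ℓ, (Metric.closedBall (0 : UnitAddCircle) s).indicator (fun _ => (1 : ℝ)) (dot n y)
      = ∫ x : UnitAddCircle, (Metric.closedBall (0 : UnitAddCircle) s).indicator (fun _ => (1 : ℝ)) x := by
    rw [← (dot_mp n hn).map_eq, integral_map (dot_mp n hn).measurable.aemeasurable]
    exact ((measurable_const.indicator Metric.isClosed_closedBall.measurableSet)).aestronglyMeasurable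
  rw [h, integral_indicator_const _ Metric.isClosed_closedBall.measurableSet, measureReal_def,
    AddCircle.volume_closedBall, smul_eq_mul, mul_one, ENNReal.toReal_ofReal]
  · exact min_le_right _ _
  · exact le_min zero_le_one (by linarith)

end Pool.Agent.KS6_58.NL
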