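import Pool.Agent.KS6_58.NL.A

/-!
The functions `P_y(n) = ∑_{b ∈ B} C(b) φ(n · y - b · y)` for a finite set `B` and tent functions `φ` of small
radius (depending on `y`), such that `P_y = C` on `B` and `P_y(n)` is small in mean for `n` outside of `B`.
-/

set_option autoImplicit false

open MeasureTheory Set

namespace Pool.Agent.KS6_58.NL

variable {ℓ : ℕ}

/-- The product of the distances of the points `b · y`, `b ∈ B`. -/
noncomputable def sp (B : Finset (Fin ℓ → ℤ)) (y : Tor ℓ) : ℝ :=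
  ∏ p ∈ B.offDiag, ‖dot p.1 y - dot p.2 y‖

/-- The radius of the tents. -/
noncomputable def rad (B : Finset (Fin ℓ → ℤ)) (δ : ℝ) (y : Tor ℓ) : ℝ := δ * sp B y

/-- The function `P_y`. -/
noncomputable def lev (B : Finset (Fin ℓ → ℤ)) (δ : ℝ) (C : (Fin ℓ → ℤ) → ℂ) (y : Tor ℓ)
    (n : Fin ℓ → ℤ) : ℂ :=
  ∑ b ∈ B, C b * (tent (rad B δ y) (dot n y - dot b y) : ℂ)

/-- `y` is good: `n · y ≠ 0` for `n ≠ 0`. -/
def Good (y : Tor ℓ) : Prop := ∀ n : Fin ℓ → ℤ, n ≠ 0 → dot n y ≠ 0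

theorem ae_good : ∀ᵐ y : Tor ℓ, Good y := by
  unfold Good
  rw [ae_all_iff]
  intro n
  by_cases hn : n = 0
  · exact Filter.Eventually.of_forall fun y h => absurd hn h
  · filter_upwards [ae_dot_ne n hn] with y hy _
    exact hy

theorem dot_ne {y : Tor ℓ} (hy : Good y) {m n : Fin ℓ → ℤ} (h : m ≠ n) : dot m y - dot n y ≠ 0 := by
  rw [← dot_sub]
  exact hy _ (sub_ne_zero.mpr h)

theorem sp_nonneg (B : Finset (Fin ℓ → ℤ)) (y : Tor ℓ) : 0 ≤ sp B y :=
  Finset.prod_nonneg fun _ _ => norm_nonneg _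

theorem sp_pos (B : Finset (Fin ℓ → ℤ)) {y : Tor ℓ} (hy : Good y) : 0 < sp B y := by
  refine Finset.prod_pos fun p hp => ?_
  rw [Finset.mem_offDiag] at hp
  exact norm_pos_iff.mpr (dot_ne hy hp.2.2)

theorem sp_le_one (B : Finset (Fin ℓ → ℤ)) (y : Tor ℓ) : sp B y ≤ 1 :=
  Finset.prod_le_one (fun _ _ => norm_nonneg _) fun p _ => by
    have := norm_le_half (dot p.1 y - dot p.2 y)
    linarith

theorem sp_le (B : Finset (Fin ℓ → ℤ)) (y : Tor ℓ) {m n : Fin ℓ → ℤ} (hm : m ∈ B) (hn : n ∈ B)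
    (h : m ≠ n) : sp B y ≤ ‖dot m y - dot n y‖ := by
  classical
  have hp : (m, n) ∈ B.offDiag := Finset.mem_offDiag.mpr ⟨hm, hn, h⟩
  unfold sp
  rw [← Finset.mul_prod_erase _ _ hp]
  refine mul_le_of_le_one_right (norm_nonneg _) ?_
  refine Finset.prod_le_one (fun _ _ => norm_nonneg _) fun p _ => ?_
  have := norm_le_half (dot p.1 y - dot p.2 y)
  linarith

theorem rad_pos (B : Finset (Fin ℓ → ℤ)) {δ : ℝ} (hδ : 0 < δ) {y : Tor ℓ} (hy : Good y) :
    0 < rad B δ y := mul_pos hδ (sp_pos B hy)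

theorem rad_nonneg (B : Finset (Fin ℓ → ℤ)) {δ : ℝ} (hδ : 0 < δ) (y : Tor ℓ) :
    0 ≤ rad B δ y := mul_nonneg hδ.le (sp_nonneg B y)

theorem rad_le (B : Finset (Fin ℓ → ℤ)) {δ : ℝ} (hδ : 0 < δ) (y : Tor ℓ) : rad B δ y ≤ δ :=
  mul_le_of_le_one_right hδ.le (sp_le_one B y)

theorem two_rad_le (B : Finset (Fin ℓ → ℤ)) {δ : ℝ} (_hδ : 0 < δ) (hδ2 : δ ≤ 1 / 2) (y : Tor ℓ)
    {m n : Fin ℓ → ℤ} (hm : m ∈ B) (hn : n ∈ B) (h : m ≠ n) :
    2 * rad B δ y ≤ ‖dot m y - dot n y‖ := by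
  have h1 := sp_le B y hm hn h
  have h2 : rad B δ y ≤ 1 / 2 * sp B y := mul_le_mul_of_nonneg_right hδ2 (sp_nonneg B y)
  linarith

/-- `P_y = C` on `B`. -/
theorem lev_mem (B : Finset (Fin ℓ → ℤ)) {δ : ℝ} (hδ : 0 < δ) (hδ2 : δ ≤ 1 / 2)
    (C : (Fin ℓ → ℤ) → ℂ) {y : Tor ℓ} (hy : Good y) {n : Fin ℓ → ℤ} (hn : n ∈ B) :
    lev B δ C y n = C n := by
  unfold lev
  rw [Finset.sum_eq_single n]
  · rw [sub_self, tent_zero]
    simp
  · intro b hb hbn
    rw [tent_eq_zero (rad_pos B hδ hy)]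
    · simp
    · have h1 := two_rad_le B hδ hδ2 y hn hb (Ne.symm hbn)
      have h2 := rad_nonneg B hδ y
      linarith
  · intro h
    exact absurd hn h

/-- `|P_y| ≤ K` if `|C| ≤ K`. -/
theorem lev_norm_le (B : Finset (Fin ℓ → ℤ)) {δ : ℝ} (hδ : 0 < δ) (hδ2 : δ ≤ 1 / 2)
    (C : (Fin ℓ → ℤ) → ℂ) {K : ℝ} (hC : ∀ n, ‖C n‖ ≤ K) {y : Tor ℓ} (hy : Good y)
    (n : Fin ℓ → ℤ) : ‖lev B δ C y n‖ ≤ K := by
  have hK : 0 ≤ K := (norm_nonneg _).trans (hC n)
  by_cases h : ∃ b ∈ B, ‖dot n y - dot b y‖ < rad B δ y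
  · obtain ⟨b, hb, hlt⟩ := h
    have h1 : lev B δ C y n = C b * (tent (rad B δ y) (dot n y - dot b y) : ℂ) := by
      unfold lev
      refine Finset.sum_eq_single b (fun c hc hcb => ?_) fun h => absurd hb h
      rw [tent_eq_zero (rad_pos B hδ hy)]
      · simp
      · have h2 := two_rad_le B hδ hδ2 y hc hb hcb
        have h3 : ‖dot c y - dot b y‖ ≤ ‖dot n y - dot c y‖ + ‖dot n y - dot b y‖ := by
          have e : dot c y - dot b y = (dot n y - dot b y) - (dot n y - dot c y) := by abel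
          rw [e, add_comm]
          exact norm_sub_le _ _
        linarith
    rw [h1, norm_mul, Complex.norm_real, Real.norm_of_nonneg (tent_nonneg _ _)]
    calc ‖C b‖ * tent (rad B δ y) (dot n y - dot b y) ≤ K * 1 :=
          mul_le_mul (hC b) (tent_le_one (rad_nonneg B hδ y) _) (tent_nonneg _ _) hK
      _ = K := mul_one K
  · have h1 : lev B δ C y n = 0 := by
      unfold lev
      refine Finset.sum_eq_zero fun b hb => ?_
      rw [tent_eq_zero (rad_pos B hδ hy)]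
      · simp
      · by_contra hlt
        exact h ⟨b, hb, not_le.mp hlt⟩
    rw [h1, norm_zero]
    exact hK

theorem measurable_tent (B : Finset (Fin ℓ → ℤ)) (δ : ℝ) (n b : Fin ℓ → ℤ) :
    Measurable fun y : Tor ℓ => tent (rad B δ y) (dot n y - dot b y) := by
  have h1 : Measurable fun y : Tor ℓ => rad B δ y := by
    refine Continuous.measurable ?_
    unfold rad sp
    refine continuous_const.mul (continuous_finsetProd _ fun p _ => ?_)
    exact ((dot_continuous _).sub (dot_continuous _)).norm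
  have h2 : Measurable fun y : Tor ℓ => ‖dot n y - dot b y‖ :=
    (((dot_continuous _).sub (dot_continuous _)).norm).measurable
  unfold tent
  exact measurable_const.max (measurable_const.sub (h2.div h1))

theorem measurable_lev (B : Finset (Fin ℓ → ℤ)) (δ : ℝ) (C : (Fin ℓ → ℤ) → ℂ)
    (n : Fin ℓ → ℤ) : Measurable fun y : Tor ℓ => lev B δ C y n := by
  unfold lev
  refine Finset.measurable_fun_sum _ fun b _ => ?_
  exact measurable_const.mul (Complex.measurable_ofReal.comp (measurable_tent B δ n b))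

theorem lev_bound (B : Finset (Fin ℓ → ℤ)) {δ : ℝ} (hδ : 0 < δ) (C : (Fin ℓ → ℤ) → ℂ)
    (n : Fin ℓ → ℤ) (y : Tor ℓ) : ‖lev B δ C y n‖ ≤ ∑ b ∈ B, ‖C b‖ := by
  unfold lev
  refine (norm_sum_le _ _).trans (Finset.sum_le_sum fun b _ => ?_)
  rw [norm_mul, Complex.norm_real, Real.norm_of_nonneg (tent_nonneg _ _)]
  exact mul_le_of_le_one_right (norm_nonneg _) (tent_le_one (rad_nonneg B hδ y) _)

theorem integrable_lev (B : Finset (Fin ℓ → ℤ)) {δ : ℝ} (hδ : 0 < δ) (C : (Fin ℓ → ℤ) → ℂ)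
    (n : Fin ℓ → ℤ) : Integrable fun y : Tor ℓ => lev B δ C y n :=
  Integrable.of_bound (measurable_lev B δ C n).aestronglyMeasurable (∑ b ∈ B, ‖C b‖)
    (Filter.Eventually.of_forall fun y => lev_bound B hδ C n y)

/-- The mean of `|P_y(n)|` is small for `n` outside of `B`. -/
theorem mean_lev (B : Finset (Fin ℓ → ℤ)) {δ : ℝ} (hδ : 0 < δ) (C : (Fin ℓ → ℤ) → ℂ)
    {n : Fin ℓ → ℤ} (hn : n ∉ B) :
    ∫ y : Tor ℓ, ‖lev B δ C y n‖ ≤ 2 * δ * ∑ b ∈ B, ‖C b‖ := by
  have hi : ∀ b : Fin ℓ → ℤ, Integrable fun y : Tor ℓ =>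
      ‖C b‖ * (Metric.closedBall (0 : UnitAddCircle) δ).indicator (fun _ => (1 : ℝ)) (dot (n - b) y) := by
    intro b
    refine Integrable.const_mul ?_ _
    refine Integrable.of_bound (C := 1) ?_ (Filter.Eventually.of_forall fun y => ?_)
    · exact ((measurable_const.indicator Metric.isClosed_closedBall.measurableSet).comp
        (dot_continuous (n - b)).measurable).aestronglyMeasurable
    · rw [Real.norm_of_nonneg (indicator_nonneg (fun _ _ => zero_le_one) _)]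
      exact indicator_le_self' (fun _ _ => zero_le_one) _
  calc ∫ y : Tor ℓ, ‖lev B δ C y n‖ ≤ ∫ y : Tor ℓ, ∑ b ∈ B, ‖C b‖ *
        (Metric.closedBall (0 : UnitAddCircle) δ).indicator (fun _ => (1 : ℝ)) (dot (n - b) y) := by
        refine integral_mono_ae (integrable_lev B hδ C n).norm (integrable_finsetSum _ fun b _ => hi b) ?_
        filter_upwards [ae_good] with y hy
        unfold lev
        refine (norm_sum_le _ _).trans (Finset.sum_le_sum fun b _ => ?_)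
        rw [norm_mul, Complex.norm_real, Real.norm_of_nonneg (tent_nonneg _ _), dot_sub]
        exact mul_le_mul_of_nonneg_left (tent_le_ind (rad_pos B hδ hy) (rad_le B hδ y) _) (norm_nonneg _)
    _ = ∑ b ∈ B, ‖C b‖ * ∫ y : Tor ℓ,
        (Metric.closedBall (0 : UnitAddCircle) δ).indicator (fun _ => (1 : ℝ)) (dot (n - b) y) := by
        rw [integral_finsetSum _ fun b _ => hi b]
        simp only [integral_const_mul]
    _ ≤ ∑ b ∈ B, ‖C b‖ * (2 * δ) := by
        refine Finset.sum_le_sum fun b hb => mul_le_mul_of_nonneg_left ?_ (norm_nonneg _)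
        refine integral_ind (n - b) ?_ δ hδ.le
        intro h
        exact hn ((sub_eq_zero.mp h) ▸ hb)
    _ = 2 * δ * ∑ b ∈ B, ‖C b‖ := by
        rw [← Finset.sum_mul]
        ring

end Pool.Agent.KS6_58.NL
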